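import Pool.Agent.H.MP_cd93fa_pr.Main

namespace Pool.Agent.Results.MP_cd93fa_pr.Yes

open Filter Topology MeasureTheory

/-- Probability that the edge `e` gives its ball to the vertex `i` when the bins hold `b`. -/
noncomputable def pr {V : Type} [Fintype V] [DecidableEq V] (α : ℝ) (b : V → ℕ) (e : Sym2 V)
    (i : V) : ℝ :=
  if i ∈ e then (b i : ℝ) ^ α / ∑ j with j ∈ e, (b j : ℝ) ^ α else 0

open Pool.Agent.H.MP_cd93fa_pr in
theorem result {V : Type} [Fintype V] [DecidableEq V] (G : SimpleGraph V) [DecidableRel G.Adj]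
    (hG : G.Connected) (hm : 2 ≤ Fintype.card V) :
    ∃ α₀ : ℝ, ∀ α > α₀, ∀ B₀ : V → ℕ, (∀ i, 1 ≤ B₀ i) →
      ∀ (Ω : Type) [MeasurableSpace Ω] (μ : Measure Ω) [IsProbabilityMeasure μ]
        (W : ℕ → Ω → G.edgeSet → V) (B : ℕ → Ω → V → ℕ),
        (∀ n w, MeasurableSet {ω | W n ω = w}) →
        (∀ ω, B 0 ω = B₀) →
        (∀ n ω i, B (n + 1) ω i = B n ω i + (Finset.univ.filter fun e => W n ω e = i).card) →
        (∀ n ω₀ w, μ.real {ω | (∀ k < n, W k ω = W k ω₀) ∧ W n ω = w} =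
          μ.real {ω | ∀ k < n, W k ω = W k ω₀} * ∏ e : G.edgeSet, pr α (B n ω₀) e (w e)) →
        ∀ᵐ ω ∂μ, ∃ v ∈ stdSimplex ℝ V, (∃ i, v i = 0) ∧
          Tendsto (fun (n : ℕ) i => (B n ω i : ℝ) / (∑ j, B₀ j + n * G.edgeFinset.card : ℕ))
            atTop (𝓝 v) := by
  have h1 : ∀ e : G.edgeSet, ∃ a b, a ≠ b ∧ e.1 = s(a, b) := fun ⟨e, he⟩ => by
    induction e using Sym2.ind with
    | _ a b => exact ⟨a, b, G.ne_of_adj he, rfl⟩
  choose s t hst he using h1
  have := hG.nonempty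
  have hN : 0 < Fintype.card G.edgeSet := by
    obtain ⟨a, b, hab⟩ := Fintype.exists_pair_of_one_lt_card hm
    obtain ⟨p⟩ := hG.preconnected a b
    cases p with
    | nil => exact absurd rfl hab
    | cons h _ => exact Fintype.card_pos_iff.2 ⟨⟨s(_, _), h⟩⟩
  obtain ⟨α₀, h⟩ := eventually_atTop.1 (main s t hst hN)
  refine ⟨α₀, fun α hα B₀ h0 Ω _ μ _ W B hW b0 bs law => ?_⟩
  have hb : ∀ ω n, bb (fun i => (B₀ i : ℝ)) (W · ω) n = fun i => (B n ω i : ℝ) := fun ω n => by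
    induction n with
    | zero => rw [b0]; rfl
    | succ n ih =>
      funext i
      simp [bb, ih, bs, cnt, de, eq_comm]
  have hp : ∀ (b : V → ℕ) e i, pe s t α (fun i => (b i : ℝ)) e i = pr α b e i := fun b e i => by
    have e1 : (Finset.univ.filter fun j => j ∈ s(s e, t e)) = {s e, t e} := by ext j; simp
    rw [pr, he, e1, Finset.sum_pair (hst e), pe, ph, ph, de, de]
    by_cases h1 : i = s e
    · simp [h1, hst e]
    · by_cases h2 : i = t e
      · simp [h2, (hst e).symm, add_comm]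
      · simp [h1, h2]
  have h2 := h α hα.le (fun i => (B₀ i : ℝ)) (fun i => Nat.one_le_cast.2 (h0 i)) Ω μ W hW
    fun n ω₀ w => by simp only [law, hb, pw, hp]
  simp only [hb] at h2
  simpa [SimpleGraph.edgeFinset_card] using h2

end Pool.Agent.Results.MP_cd93fa_pr.Yes
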